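import Mathlib
import Pool.Agent.R356.Gold.GrowG

set_option autoImplicit false

/-!
# The value `φ₄` of the growth exponent is attained, on an open set of norms

Let `φ` be the real root of `t ^ 3 = t + 1` and let
`adN φ (u, w) = √((φ ^ 2 - 1) u ^ 2 - φ u w + w ^ 2)` (the absolute value of the complex conjugate).
For every norm `N` on the plane with `a adN ≤ N ≤ b adN`, `b ^ 2 < φ a ^ 2`, the best approximation
vectors of `(φ, φ ^ 2)` of large denominator are the triples of consecutive Padovan numbers, and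
`G_N(φ, φ ^ 2) = φ`. Hence the double infimum of the problem is at most `φ`.
-/

namespace Pool.Agent.Results.MP_f10524_nt.ValueAttained

open Filter Topology

/-- `(x, y, z)` is a best approximation vector of `(θ₁, θ₂)` for the norm `N`: it is not zero, and
the only integer points `(x', y', z')` with `|x'| ≤ |x|` and
`N (x' θ₁ - y', x' θ₂ - z') ≤ N (x θ₁ - y, x θ₂ - z)` are `0` and `± (x, y, z)`. -/
def IsBest (N : ℝ → ℝ → ℝ) (θ₁ θ₂ : ℝ) (x y z : ℤ) : Prop :=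
  ¬(x = 0 ∧ y = 0 ∧ z = 0) ∧ ∀ x' y' z' : ℤ, |x'| ≤ |x| →
    N (x' * θ₁ - y') (x' * θ₂ - z') ≤ N (x * θ₁ - y) (x * θ₂ - z) →
    (x' = 0 ∧ y' = 0 ∧ z' = 0) ∨ (x' = x ∧ y' = y ∧ z' = z) ∨ (x' = -x ∧ y' = -y ∧ z' = -z)

/-- the set of the numbers `|x|` for the best approximation vectors `(x, y, z)` -/
def Den (N : ℝ → ℝ → ℝ) (θ₁ θ₂ : ℝ) : Set ℕ :=
  {m | ∃ x y z : ℤ, IsBest N θ₁ θ₂ x y z ∧ x.natAbs = m}

/-- `M_ν`, the `ν`-th smallest element of `Den`, for `ν = 1, 2, 3, ...` -/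
noncomputable def M (N : ℝ → ℝ → ℝ) (θ₁ θ₂ : ℝ) (ν : ℕ) : ℕ := by
  classical exact Nat.nth (fun m => m ∈ Den N θ₁ θ₂) (ν - 1)

/-- `G = liminf M_ν ^ (1 / ν)` -/
noncomputable def G (N : ℝ → ℝ → ℝ) (θ₁ θ₂ : ℝ) : ℝ :=
  liminf (fun ν : ℕ => (M N θ₁ θ₂ ν : ℝ) ^ (1 / (ν : ℝ))) atTop

/-- norms on the plane -/
structure IsNorm (N : ℝ → ℝ → ℝ) : Prop where
  zero : ∀ u w, N u w = 0 → u = 0 ∧ w = 0
  hom : ∀ r u w, N (r * u) (r * w) = |r| * N u w
  add : ∀ u w u' w', N (u + u') (w + w') ≤ N u w + N u' w'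

/-- `x (θ₁, θ₂)` is not an integer point for every integer `x ≠ 0` -/
def Admissible (θ₁ θ₂ : ℝ) : Prop :=
  ∀ x y z : ℤ, x ≠ 0 → ¬((x : ℝ) * θ₁ = y ∧ (x : ℝ) * θ₂ = z)

/-- the adapted norm -/
noncomputable def adN (φ u w : ℝ) : ℝ := √((φ ^ 2 - 1) * u ^ 2 - φ * u * w + w ^ 2)

/-- The Padovan sequence `0, 0, 1, 0, 1, 1, 1, 2, 2, 3, 4, 5, 7, ...` -/
def P : ℕ → ℤ
  | 0 => 0
  | 1 => 0
  | 2 => 1
  | (n + 3) => P (n + 1) + P n

theorem P_eq (n : ℕ) : P n = Pool.Agent.R356.Gold.P n := by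
  induction n using Nat.strong_induction_on with
  | _ n ih =>
    match n with
    | 0 => rfl
    | 1 => rfl
    | 2 => rfl
    | (m + 3) =>
      rw [P, Pool.Agent.R356.Gold.P_rec, ih (m + 1) (by omega), ih m (by omega)]

theorem adN_eq {φ : ℝ} (hφ : φ ^ 3 = φ + 1) (u w : ℝ) :
    adN φ u w = ‖(⟨w - φ * u / 2, √(3 * φ ^ 2 / 4 - 1) * u⟩ : ℂ)‖ := by
  have s1 := Pool.Agent.R356.Gold.sq_lo hφ
  have h : √(3 * φ ^ 2 / 4 - 1) ^ 2 = 3 * φ ^ 2 / 4 - 1 := Real.sq_sqrt (by linarith)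
  rw [Complex.norm_eq_sqrt_sq_add_sq]
  unfold adN
  congr 1
  simp only
  rw [mul_pow, h]
  ring

theorem adN_norm {φ : ℝ} (hφ : φ ^ 3 = φ + 1) : IsNorm (adN φ) := by
  have s1 := Pool.Agent.R356.Gold.sq_lo hφ
  have hc : 0 < √(3 * φ ^ 2 / 4 - 1) := Real.sqrt_pos.2 (by linarith)
  refine ⟨?_, ?_, ?_⟩
  · intro u w h
    rw [adN_eq hφ, norm_eq_zero, Complex.ext_iff] at h
    simp only [Complex.zero_re, Complex.zero_im] at h
    have hu : u = 0 := by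
      rcases mul_eq_zero.1 h.2 with h1 | h1
      · exact absurd h1 hc.ne'
      · exact h1
    refine ⟨hu, ?_⟩
    have := h.1
    rw [hu] at this
    linarith
  · intro r u w
    rw [adN_eq hφ, adN_eq hφ, ← Real.norm_eq_abs, ← norm_smul]
    congr 1
    rw [Complex.ext_iff]
    simp only [Complex.smul_re, Complex.smul_im, smul_eq_mul]
    constructor <;> ring
  · intro u w u' w'
    rw [adN_eq hφ, adN_eq hφ, adN_eq hφ]
    refine le_trans (le_of_eq ?_) (norm_add_le _ _)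
    congr 1
    rw [Complex.ext_iff]
    simp only [Complex.add_re, Complex.add_im]
    constructor <;> ring

theorem adN_sq {φ : ℝ} (hφ : φ ^ 3 = φ + 1) (u w : ℝ) :
    adN φ u w ^ 2 = Pool.Agent.R356.Gold.q φ u w :=
  Real.sq_sqrt (Pool.Agent.R356.Gold.q_nonneg hφ u w)

theorem near_of {φ : ℝ} (hφ : φ ^ 3 = φ + 1) {N : ℝ → ℝ → ℝ} (hN : IsNorm N) {a b : ℝ}
    (ha : 0 < a) (h : ∀ u w, a * adN φ u w ≤ N u w ∧ N u w ≤ b * adN φ u w) :
    Pool.Agent.R356.Gold.Near φ (b ^ 2 / a ^ 2) N := by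
  refine ⟨?_, ?_⟩
  · intro u w
    have := hN.hom (-1) u w
    rw [neg_one_mul, neg_one_mul, abs_neg, abs_one, one_mul] at this
    exact this
  · intro u w u' w' hle
    have h1 : a * adN φ u w ≤ b * adN φ u' w' := (h u w).1.trans (hle.trans (h u' w').2)
    have h0 : 0 ≤ a * adN φ u w := mul_nonneg ha.le (Real.sqrt_nonneg _)
    have h2 : (a * adN φ u w) ^ 2 ≤ (b * adN φ u' w') ^ 2 := pow_le_pow_left₀ h0 h1 2
    rw [mul_pow, mul_pow, adN_sq hφ, adN_sq hφ] at h2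
    rw [div_mul_eq_mul_div, le_div_iff₀ (by positivity)]
    linarith

theorem main {φ : ℝ} (hφ : φ ^ 3 = φ + 1) {κ : ℝ} {N : ℝ → ℝ → ℝ}
    (hN : Pool.Agent.R356.Gold.Near φ κ N) (hκ : κ < φ) :
    (Den N φ (φ ^ 2)).Infinite ∧
    Tendsto (fun ν : ℕ => (M N φ (φ ^ 2) ν : ℝ) ^ (1 / (ν : ℝ))) atTop (𝓝 φ) ∧
    ∀ x y z : ℤ, P 31 ≤ x → (IsBest N φ (φ ^ 2) x y z ↔
      ∃ k : ℕ, x = P k ∧ y = P (k + 1) ∧ z = P (k + 2)) := by
  classical
  have hcnt : ∀ n : ℕ, @Nat.count (fun _ : ℕ => True) (fun _ => Classical.propDecidable _) n = n := by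
    intro n
    induction n with
    | zero => rfl
    | succ n ih => rw [Nat.count_succ, ih, if_pos trivial]
  have hd : Tendsto (fun n : ℕ =>
      ((@Nat.count (fun _ : ℕ => True) (fun _ => Classical.propDecidable _) n : ℕ) : ℝ) / n)
      atTop (𝓝 1) := by
    refine tendsto_const_nhds.congr' ?_
    filter_upwards [eventually_gt_atTop 0] with n hn
    rw [hcnt n]
    have h5 : (n : ℝ) ≠ 0 := by exact_mod_cast hn.ne'
    rw [div_self h5]
  obtain ⟨h1, h2⟩ := Pool.Agent.R356.Gold.growth_gen hφ (F := N) (K := 31) (by norm_num)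
    (fun _ => True)
    (by
      intro x y z hb hx
      rcases le_total 0 x with h0 | h0
      · rw [abs_of_nonneg h0] at hx ⊢
        obtain ⟨k, hk, h1, _⟩ := Pool.Agent.R356.Gold.ad_only hφ hN hκ hb hx
        exact ⟨k, hk, h1, trivial⟩
      · rw [abs_of_nonpos h0] at hx ⊢
        obtain ⟨k, hk, h1, _⟩ := Pool.Agent.R356.Gold.ad_only hφ hN hκ
          (Pool.Agent.R356.Gold.isBest_neg hN.neg hb) hx
        exact ⟨k, hk, h1, trivial⟩)
    (fun k hk _ => Pool.Agent.R356.Gold.ad_best hφ hN hκ (by omega))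
    one_pos hd
  refine ⟨h1, ?_, ?_⟩
  · rw [← tendsto_add_atTop_iff_nat 1]
    rw [one_div_one, Real.rpow_one] at h2
    refine h2.congr (fun n => ?_)
    unfold M
    rw [Nat.add_sub_cancel]
    push_cast
    congr!
  · intro x y z hx
    constructor
    · intro hb
      rw [P_eq] at hx
      obtain ⟨k, _, h3⟩ := Pool.Agent.R356.Gold.ad_only hφ hN hκ hb hx
      refine ⟨k, ?_⟩
      rw [P_eq, P_eq, P_eq]
      exact h3
    · rintro ⟨k, rfl, rfl, rfl⟩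
      rw [P_eq, P_eq] at hx
      have hk : 31 ≤ k := by
        by_contra hcon
        push Not at hcon
        have := Pool.Agent.R356.Gold.P_lt_of hcon (by norm_num)
        omega
      rw [P_eq, P_eq, P_eq]
      exact Pool.Agent.R356.Gold.ad_best hφ hN hκ (by omega)

/-- **The value `φ` is attained for all norms near the adapted norm.** -/
theorem result (φ : ℝ) (hφ : φ ^ 3 = φ + 1) :
    IsNorm (adN φ) ∧ Admissible φ (φ ^ 2) ∧
    (∀ N : ℝ → ℝ → ℝ, IsNorm N →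
      (∃ a b : ℝ, 0 < a ∧ b ^ 2 < φ * a ^ 2 ∧
        ∀ u w, a * adN φ u w ≤ N u w ∧ N u w ≤ b * adN φ u w) →
      (Den N φ (φ ^ 2)).Infinite ∧
      Tendsto (fun ν : ℕ => (M N φ (φ ^ 2) ν : ℝ) ^ (1 / (ν : ℝ))) atTop (𝓝 φ) ∧
      G N φ (φ ^ 2) = φ ∧
      ∀ x y z : ℤ, P 31 ≤ x → (IsBest N φ (φ ^ 2) x y z ↔
        ∃ k : ℕ, x = P k ∧ y = P (k + 1) ∧ z = P (k + 2))) ∧
    sInf {g : ℝ | ∃ (N : ℝ → ℝ → ℝ) (θ₁ θ₂ : ℝ), IsNorm N ∧ Admissible θ₁ θ₂ ∧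
      g = G N θ₁ θ₂} ≤ φ := by
  have hadm : Admissible φ (φ ^ 2) := by
    rintro x y z hx ⟨h1, _⟩
    have h2 := Pool.Agent.R356.Gold.e1_ne hφ (x := x) (y := y) hx
    apply h2
    unfold Pool.Agent.R356.Gold.e1
    linarith
  have hmain : ∀ N : ℝ → ℝ → ℝ, IsNorm N →
      (∃ a b : ℝ, 0 < a ∧ b ^ 2 < φ * a ^ 2 ∧
        ∀ u w, a * adN φ u w ≤ N u w ∧ N u w ≤ b * adN φ u w) →
      (Den N φ (φ ^ 2)).Infinite ∧
      Tendsto (fun ν : ℕ => (M N φ (φ ^ 2) ν : ℝ) ^ (1 / (ν : ℝ))) atTop (𝓝 φ) ∧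
      G N φ (φ ^ 2) = φ ∧
      ∀ x y z : ℤ, P 31 ≤ x → (IsBest N φ (φ ^ 2) x y z ↔
        ∃ k : ℕ, x = P k ∧ y = P (k + 1) ∧ z = P (k + 2)) := by
    rintro N hN ⟨a, b, ha, hab, h⟩
    obtain ⟨h1, h2, h3⟩ := main hφ (near_of hφ hN ha h) (by
      rw [div_lt_iff₀ (by positivity)]
      exact hab)
    exact ⟨h1, h2, h2.liminf_eq, h3⟩
  have hl := Pool.Agent.R356.Gold.t_lo hφ
  refine ⟨adN_norm hφ, hadm, hmain, ?_⟩
  apply csInf_le
  · refine ⟨0, ?_⟩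
    rintro g ⟨N, θ₁, θ₂, _, _, rfl⟩
    unfold G
    rw [Filter.liminf_eq]
    apply Real.sSup_nonneg'
    refine ⟨0, ?_, le_rfl⟩
    exact Eventually.of_forall (fun n => by positivity)
  · refine ⟨adN φ, φ, φ ^ 2, adN_norm hφ, hadm, ?_⟩
    exact ((hmain (adN φ) (adN_norm hφ) ⟨1, 1, one_pos, by linarith, fun u w => by
      rw [one_mul]
      exact ⟨le_rfl, le_rfl⟩⟩).2.2.1).symm

end Pool.Agent.Results.MP_f10524_nt.ValueAttained
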